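import Pool.Agent.Helper83.PT.St6

/-! Project PT (MP_26f0da_lc), module M3: the packed register operations are correct. -/

set_option autoImplicit false

namespace Pool.Agent.Helper83.PT.Helper89

open Pool.Agent.Helper73.DC
open Finset
open scoped Classical

theorem q_dg_lt {B : ℕ} (hB : 0 < B) (v i : ℕ) : dg B v i < B := Nat.mod_lt _ hB

/-- digits of a sum of powers -/
theorem q_dig_sum {p : ℕ} (hp : 0 < p) (c : ℕ → ℕ) (hc : ∀ i, c i < p) (n : ℕ) :
    ∑ i ∈ range n, c i * p ^ i < p ^ n ∧ ∀ j < n, dg p (∑ i ∈ range n, c i * p ^ i) j = c j := by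
  induction n with
  | zero => simp
  | succ n ih =>
    obtain ⟨h1, h2⟩ := ih
    rw [sum_range_succ]
    have hpn : 0 < p ^ n := Nat.pos_of_ne_zero (by positivity)
    constructor
    · have : c n * p ^ n + p ^ n ≤ p ^ (n + 1) := by
        rw [pow_succ]
        have := hc n
        nlinarith
      omega
    · intro j hj
      unfold dg
      rcases Nat.lt_succ_iff_lt_or_eq.1 hj with h | h
      · have e : c n * p ^ n = (c n * p ^ (n - j - 1) * p) * p ^ j := by
          rw [mul_assoc, mul_assoc, ← pow_succ', ← pow_add]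
          congr 2
          omega
        rw [e, Nat.add_mul_div_right _ _ (Nat.pos_of_ne_zero (by positivity)), Nat.add_mul_mod_self_right]
        exact h2 j h
      · subst h
        rw [Nat.add_mul_div_right _ _ hpn, Nat.div_eq_of_lt h1, zero_add]
        exact Nat.mod_eq_of_lt (hc j)

theorem q_bld_spec {p : ℕ} (hp : 0 < p) (n : ℕ) (h : ℕ → ℕ) :
    bld (p ^ n) p n h < p ^ n ∧ ∀ j < n, dg p (bld (p ^ n) p n h) j = h j % p := by
  have e : bld (p ^ n) p n h = ∑ i ∈ range n, (h i % p) * p ^ i := by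
    unfold bld
    refine sum_congr rfl fun i hi => ?_
    unfold pw
    rw [min_eq_left]
    have : p ^ i ≤ p ^ n := Nat.pow_le_pow_right hp (mem_range.1 hi).le
    omega
  rw [e]
  exact q_dig_sum hp _ (fun i => Nat.mod_lt _ hp) n

theorem q_idx {L k i : ℕ} (hi : i < L) : (k * L + i) / L = k ∧ (k * L + i) % L = i := by
  constructor
  · rw [mul_comm, Nat.mul_add_div (by omega), Nat.div_eq_of_lt hi, add_zero]
  · rw [mul_comm, Nat.mul_add_mod, Nat.mod_eq_of_lt hi]

theorem q_idx_lt {L k i : ℕ} (hk : k < 3) (hi : i < L) : k * L + i < 3 * L := by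
  have : (k + 1) * L ≤ 3 * L := Nat.mul_le_mul_right L (by omega)
  nlinarith

/-- general form: a packed operation built digit by digit -/
theorem q_rp_bld {p L : ℕ} [Fact p.Prime] (h : ℕ → ℕ) (r' : RG p)
    (hh : ∀ k < 3, ∀ i < L, ((h (k * L + i) : ℕ) : ZMod p) = r' k i) : Rp p L (bld (p ^ (3 * L)) p (3 * L) h) r' := by
  have hp : 0 < p := (Fact.out : p.Prime).pos
  obtain ⟨h1, h2⟩ := q_bld_spec hp (3 * L) h
  refine ⟨h1, fun k hk i hi => ?_⟩
  rw [h2 _ (q_idx_lt hk hi), ZMod.natCast_mod]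
  exact hh k hk i hi

theorem q_nu_cast {p B D : ℕ} [Fact p.Prime] (hB : 2 ≤ B) (hBp : B ≤ p) (a : ℕ) (x : ℕ → ℕ) :
    ((nu p B D a x : ℕ) : ZMod p) = ∏ j ∈ range (D * B), if j % B = dg B a (j / B) then 1 else
      (((x (j / B) : ℕ) : ZMod p) - ((j % B : ℕ) : ZMod p)) := by
  unfold nu
  rw [ZMod.natCast_mod, Nat.cast_prod]
  refine prod_congr rfl fun j _ => ?_
  split_ifs
  · exact Nat.cast_one
  · have : j % B < B := Nat.mod_lt _ (by omega)
    rw [Nat.cast_sub (by omega), Nat.cast_add, ZMod.natCast_self, add_zero]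

theorem q_nu_ne {p B D : ℕ} [Fact p.Prime] (hB : 2 ≤ B) (hBp : B ≤ p) (a : ℕ) :
    ((nu p B D a (fun i => dg B a i) : ℕ) : ZMod p) ≠ 0 := by
  rw [q_nu_cast hB hBp, prod_ne_zero_iff]
  intro j _
  split_ifs with h
  · exact one_ne_zero
  · rw [sub_ne_zero]
    intro e
    rw [ZMod.natCast_eq_natCast_iff'] at e
    have h1 : j % B < B := Nat.mod_lt _ (by omega)
    have h2 : dg B a (j / B) < B := q_dg_lt (by omega) _ _
    rw [Nat.mod_eq_of_lt (lt_of_lt_of_le h1 hBp), Nat.mod_eq_of_lt (lt_of_lt_of_le h2 hBp)] at e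
    exact h e.symm

theorem q_dln_cast {p B D g : ℕ} [Fact p.Prime] {r : RG p} (hB : 2 ≤ B) (hBp : B ≤ p)
    (hr : Rp p D g r) (a k : ℕ) (hk : k < 3) :
    ((dln p B D a g k : ℕ) : ZMod p) = dl p B D a (r k) := by
  have hp2 : 2 ≤ p := (Fact.out : p.Prime).two_le
  unfold dln
  rw [ZMod.natCast_mod, Nat.cast_mul, Nat.cast_pow]
  have hne := q_nu_ne (D := D) hB hBp a
  have hinv : ((nu p B D a (fun i => dg B a i) : ℕ) : ZMod p) ^ (p - 2) =
      ((nu p B D a (fun i => dg B a i) : ℕ) : ZMod p)⁻¹ := by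
    apply eq_inv_of_mul_eq_one_left
    rw [← pow_succ]
    have : p - 2 + 1 = p - 1 := by omega
    rw [this]
    exact ZMod.pow_card_sub_one_eq_one hne
  rw [hinv, q_nu_cast hB hBp, q_nu_cast hB hBp, ← prod_inv_distrib, ← prod_mul_distrib]
  unfold dl
  refine prod_congr rfl fun j hj => ?_
  rw [mem_range] at hj
  split_ifs
  · rw [inv_one, mul_one]
  · have hjD : j / B < D := by
      rw [Nat.div_lt_iff_lt_mul (by omega)]
      exact hj
    rw [hr.2 k hk _ hjD]

theorem mM3 : StM3 := by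
  intro p B D _ g r hB hBp hr
  have hp : 0 < p := (Fact.out : p.Prime).pos
  have hp2 : 2 ≤ p := (Fact.out : p.Prime).two_le
  refine ⟨?_, ?_, ?_⟩
  · intro o s w1 ho
    unfold addn
    refine q_rp_bld _ _ fun k hk i hi => ?_
    obtain ⟨e1, e2⟩ := q_idx (k := k) hi
    rw [e1, e2]
    unfold addB
    by_cases hko : k = o
    · rw [if_pos hko, if_pos (show k = o ∧ i < D from ⟨hko, hi⟩), Nat.cast_add, hr.2 k hk i hi]
      congr 1
      unfold sgn
      by_cases hs : s = 0
      · rw [if_pos hs, if_pos hs]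
        show _ = 1 * _
        rw [one_mul]
      · rw [if_neg hs, if_neg hs]
        have := q_dg_lt (show 0 < B by omega) w1 i
        rw [Nat.cast_sub (by omega), ZMod.natCast_self]
        ring
    · rw [if_neg hko, if_neg (show ¬ (k = o ∧ i < D) from fun h => hko h.1)]
      exact hr.2 k hk i hi
  · intro o om ho
    unfold scln
    refine q_rp_bld _ _ fun k hk i hi => ?_
    obtain ⟨e1, _⟩ := q_idx (k := k) hi
    rw [e1]
    unfold sclB
    by_cases hko : k = o
    · rw [if_pos hko, if_neg (by omega)]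
      exact hr.2 k hk i hi
    · rw [if_neg hko, if_pos (by omega), Nat.cast_mul, hr.2 k hk i hi]
  · intro o s a b x ho
    unfold updn
    refine q_rp_bld _ _ fun k hk i hi => ?_
    obtain ⟨e1, e2⟩ := q_idx (k := k) hi
    rw [e1, e2]
    unfold addB
    by_cases hko : k = o
    · rw [if_pos hko, if_pos (show k = o ∧ i < D from ⟨hko, hi⟩), Nat.cast_add, hr.2 k hk i hi]
      congr 1
      unfold sgn
      have hd1 := q_dln_cast hB hBp hr a ((o + 1) % 3) (Nat.mod_lt _ (by norm_num))
      have hd2 := q_dln_cast hB hBp hr b ((o + 2) % 3) (Nat.mod_lt _ (by norm_num))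
      by_cases hs : s = 0
      · rw [if_pos hs, if_pos hs, Nat.cast_sub (Nat.mod_lt _ hp).le, ZMod.natCast_mod, ZMod.natCast_self, zero_sub]
        show _ = -(1 * _)
        rw [one_mul]
        push_cast
        rw [hd1, hd2]
      · rw [if_neg hs, if_neg hs]
        push_cast
        rw [hd1, hd2]
        ring
    · rw [if_neg hko, if_neg (show ¬ (k = o ∧ i < D) from fun h => hko h.1)]
      exact hr.2 k hk i hi

end Pool.Agent.Helper83.PT.Helper89
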